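import Pool.Agent.Work.MP_042f46_an.F.Cl

open Pool.Agent.Work.MP_042f46_an

namespace Pool.Agent.Results.MP_042f46_an.AllAlpha

theorem result :
    ∀ (p q : Polynomial ℂ) (α : ℝ) (S : Set ℂ),
      IsCoprime p q → 2 ≤ max p.natDegree q.natDegree → Irrational α →
      IsOpen S → IsConnected S → (0 : ℂ) ∈ S → Bornology.IsBounded (closure S) →
      (∀ z ∈ closure S, q.eval z ≠ 0) →
      Set.MapsTo (fun z : ℂ => p.eval z / q.eval z) S S →
      (∃ h : ℂ → ℂ, DifferentiableOn ℂ h S ∧ Set.InjOn h S ∧ h 0 = 0 ∧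
        ∀ z ∈ S, h (p.eval z / q.eval z)
          = Complex.exp (2 * (Real.pi : ℂ) * Complex.I * (α : ℂ)) * h z) →
      Set.InjOn (fun z : ℂ => p.eval z / q.eval z) (closure S) := by
  rintro p q α S hc hd hα hS hSc h0 hb hq hm ⟨h, hh, hi, hz, hf⟩
  exact Fu.main_cl p q α S hc (by omega) hα hS hSc.isPreconnected h0 (hb.subset subset_closure) hq
    hm hh hi hz hf

end Pool.Agent.Results.MP_042f46_an.AllAlpha
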